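import Pool.Agent.helper73.BRZ.Spec

/-!
# Row brz:LSB, lattices without short vectors
-/

set_option autoImplicit false

namespace Pool.Agent.BRZ

open MeasureTheory Metric

/-- the number of lattice points in a ball -/
theorem LSB_count {N : ℕ} (B : EE N →ₗ[ℝ] EE N) {r R : ℝ} (hr : 0 < r) (hR : 0 ≤ R)
    (h : ∀ n : Fin N → ℤ, n ≠ 0 → r ≤ ‖B (zv n)‖) (s : Finset (Fin N → ℤ))
    (hs : ∀ n ∈ s, ‖B (zv n)‖ ≤ R) : (s.card : ℝ) ≤ (1 + 2 * R / r) ^ N := by
  have hzv : ∀ n m : Fin N → ℤ, B (zv n) - B (zv m) = B (zv (n - m)) := by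
    intro n m
    rw [← map_sub]
    congr 1
    ext i
    simp [zv]
  have hfr : Module.finrank ℝ (EE N) = N := by simp
  have hdisj : (s : Set (Fin N → ℤ)).PairwiseDisjoint (fun n => ball (B (zv n)) (r / 2)) := by
    intro n _ m _ hnm
    apply ball_disjoint_ball
    rw [dist_eq_norm, hzv]
    have := h (n - m) (sub_ne_zero.2 hnm)
    linarith
  have hsub : (⋃ n ∈ s, ball (B (zv n)) (r / 2)) ⊆ ball (0 : EE N) (R + r / 2) := by
    intro x hx
    rw [Set.mem_iUnion₂] at hx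
    obtain ⟨n, hn, hx⟩ := hx
    rw [mem_ball, dist_eq_norm] at hx
    rw [mem_ball, dist_zero_right]
    calc ‖x‖ = ‖(x - B (zv n)) + B (zv n)‖ := by rw [sub_add_cancel]
      _ ≤ ‖x - B (zv n)‖ + ‖B (zv n)‖ := norm_add_le _ _
      _ < R + r / 2 := by linarith [hs n hn]
  have h1 : ∑ n ∈ s, (volume : Measure (EE N)) (ball (B (zv n)) (r / 2)) ≤
      (volume : Measure (EE N)) (ball (0 : EE N) (R + r / 2)) := by
    rw [← measure_biUnion_finset hdisj fun n _ => measurableSet_ball]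
    exact measure_mono hsub
  have hr2 : 0 < r / 2 := by linarith
  have hR2 : 0 < R + r / 2 := by linarith
  have h2 : ∀ n ∈ s, (volume : Measure (EE N)) (ball (B (zv n)) (r / 2)) =
      ENNReal.ofReal ((r / 2) ^ N) * (volume : Measure (EE N)) (ball 0 1) := by
    intro n _
    rw [Measure.addHaar_ball_of_pos _ _ hr2, hfr]
  rw [Finset.sum_congr rfl h2, Measure.addHaar_ball_of_pos _ _ hR2, hfr, Finset.sum_const,
    nsmul_eq_mul, ← mul_assoc] at h1
  have h3 : (volume : Measure (EE N)) (ball 0 1) ≠ 0 := (measure_ball_pos _ _ one_pos).ne'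
  have h4 : (volume : Measure (EE N)) (ball 0 1) ≠ ⊤ := measure_ball_lt_top.ne
  have h5 := (ENNReal.mul_le_mul_iff_left h3 h4).1 h1
  have h6 : (s.card : ℝ) * (r / 2) ^ N ≤ (R + r / 2) ^ N := by
    have h7 : ((s.card : ℕ) : ENNReal) = ENNReal.ofReal (s.card : ℝ) := by
      rw [ENNReal.ofReal_natCast]
    rw [h7, ← ENNReal.ofReal_mul (Nat.cast_nonneg _)] at h5
    exact (ENNReal.ofReal_le_ofReal_iff (by positivity)).1 h5
  have h8 : (1 + 2 * R / r) ^ N = (R + r / 2) ^ N / (r / 2) ^ N := by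
    rw [← div_pow]
    congr 1
    field_simp
    ring
  rw [h8, le_div_iff₀ (by positivity)]
  exact h6

theorem LSB : LSB_stmt := by
  intro N hN
  refine ⟨8 ^ N * 2, ?_⟩
  intro B r hr h
  -- the shell of a vector
  let kk : {n : Fin N → ℤ // n ≠ 0} → ℕ := fun n => Nat.log 2 ⌊‖B (zv n.1)‖ / r⌋₊
  have hk1 : ∀ n, 2 ^ kk n * r ≤ ‖B (zv n.1)‖ := by
    intro n
    have h1 : 1 ≤ ‖B (zv n.1)‖ / r := by
      rw [le_div_iff₀ hr, one_mul]
      exact h n.1 n.2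
    have h2 : ⌊‖B (zv n.1)‖ / r⌋₊ ≠ 0 := by
      have := (Nat.one_le_floor_iff _).2 h1
      omega
    have h3 : 2 ^ kk n ≤ ⌊‖B (zv n.1)‖ / r⌋₊ := Nat.pow_log_le_self 2 h2
    have h4 : ((2 ^ kk n : ℕ) : ℝ) ≤ ‖B (zv n.1)‖ / r :=
      le_trans (by exact_mod_cast h3) (Nat.floor_le (by positivity))
    rw [le_div_iff₀ hr] at h4
    push_cast at h4
    exact h4
  have hk2 : ∀ n, ‖B (zv n.1)‖ ≤ 2 ^ (kk n + 1) * r := by
    intro n
    have h3 : ⌊‖B (zv n.1)‖ / r⌋₊ < 2 ^ (kk n + 1) := Nat.lt_pow_succ_log_self (by norm_num) _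
    have h4 : ‖B (zv n.1)‖ / r < ((2 ^ (kk n + 1) : ℕ) : ℝ) := by
      have h5 := Nat.lt_floor_add_one (‖B (zv n.1)‖ / r)
      have h6 : ((⌊‖B (zv n.1)‖ / r⌋₊ : ℕ) : ℝ) + 1 ≤ ((2 ^ (kk n + 1) : ℕ) : ℝ) := by
        exact_mod_cast h3
      linarith
    rw [div_lt_iff₀ hr] at h4
    push_cast at h4
    exact h4.le
  -- the sum over one shell
  have hshell : ∀ (s : Finset {n : Fin N → ℤ // n ≠ 0}) (k : ℕ),
      ∑ n ∈ s.filter (fun n => kk n = k), (‖B (zv n.1)‖ ^ (2 * N))⁻¹ ≤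
        8 ^ N * (1 / 2) ^ k * (r ^ (2 * N))⁻¹ := by
    intro s k
    have h1 : ∀ n ∈ s.filter (fun n => kk n = k), (‖B (zv n.1)‖ ^ (2 * N))⁻¹ ≤
        ((2 ^ k * r) ^ (2 * N))⁻¹ := by
      intro n hn
      rw [Finset.mem_filter] at hn
      have h2 := hk1 n
      rw [hn.2] at h2
      apply inv_anti₀ (by positivity)
      exact pow_le_pow_left₀ (by positivity) h2 _
    have h2 : ((s.filter (fun n => kk n = k)).card : ℝ) ≤ (1 + 2 * (2 ^ (k + 1) * r) / r) ^ N := by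
      have h3 := LSB_count B hr (show (0 : ℝ) ≤ 2 ^ (k + 1) * r by positivity) h
        ((s.filter (fun n => kk n = k)).map ⟨Subtype.val, Subtype.val_injective⟩) (by
          intro m hm
          rw [Finset.mem_map] at hm
          obtain ⟨n, hn, rfl⟩ := hm
          rw [Finset.mem_filter] at hn
          have h4 := hk2 n
          rw [hn.2] at h4
          exact h4)
      rw [Finset.card_map] at h3
      exact h3
    have h3 : (1 + 2 * (2 ^ (k + 1) * r) / r) ^ N ≤ (8 * 2 ^ k : ℝ) ^ N := by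
      apply pow_le_pow_left₀ (by positivity)
      have h4 : 2 * (2 ^ (k + 1) * r) / r = 4 * 2 ^ k := by
        field_simp
        ring
      rw [h4]
      have h5 : (1 : ℝ) ≤ 2 ^ k := one_le_pow₀ (by norm_num)
      linarith
    calc ∑ n ∈ s.filter (fun n => kk n = k), (‖B (zv n.1)‖ ^ (2 * N))⁻¹
        ≤ ∑ _n ∈ s.filter (fun n => kk n = k), ((2 ^ k * r) ^ (2 * N))⁻¹ := Finset.sum_le_sum h1
      _ = ((s.filter (fun n => kk n = k)).card : ℝ) * ((2 ^ k * r) ^ (2 * N))⁻¹ := by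
          rw [Finset.sum_const, nsmul_eq_mul]
      _ ≤ (8 * 2 ^ k : ℝ) ^ N * ((2 ^ k * r) ^ (2 * N))⁻¹ :=
          mul_le_mul_of_nonneg_right (h2.trans h3) (by positivity)
      _ = 8 ^ N * ((2 ^ k) ^ N)⁻¹ * (r ^ (2 * N))⁻¹ := by
          rw [mul_pow, mul_pow, mul_inv, pow_mul ((2 : ℝ) ^ k) 2 N, sq ((2 : ℝ) ^ k), mul_pow]
          have : ((2 : ℝ) ^ k) ^ N ≠ 0 := by positivity
          field_simp
      _ ≤ 8 ^ N * (1 / 2) ^ k * (r ^ (2 * N))⁻¹ := by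
          apply mul_le_mul_of_nonneg_right _ (by positivity)
          apply mul_le_mul_of_nonneg_left _ (by positivity)
          rw [one_div, inv_pow]
          apply inv_anti₀ (by positivity)
          calc (2 : ℝ) ^ k = (2 ^ k) ^ 1 := (pow_one _).symm
            _ ≤ (2 ^ k) ^ N := pow_le_pow_right₀ (one_le_pow₀ (by norm_num)) hN
  have hfin : ∀ s : Finset {n : Fin N → ℤ // n ≠ 0},
      ∑ n ∈ s, (‖B (zv n.1)‖ ^ (2 * N))⁻¹ ≤ 8 ^ N * 2 * (r ^ (2 * N))⁻¹ := by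
    intro s
    have h1 : ∑ n ∈ s, (‖B (zv n.1)‖ ^ (2 * N))⁻¹ =
        ∑ k ∈ s.image kk, ∑ n ∈ s.filter (fun n => kk n = k), (‖B (zv n.1)‖ ^ (2 * N))⁻¹ :=
      (Finset.sum_fiberwise_of_maps_to (fun n hn => Finset.mem_image_of_mem kk hn) _).symm
    rw [h1]
    have h2 : ∑ k ∈ s.image kk, ((1 : ℝ) / 2) ^ k ≤ 2 := by
      exact le_trans (summable_geometric_two.sum_le_tsum _ fun _ _ => by positivity)
        tsum_geometric_two.le
    calc ∑ k ∈ s.image kk, ∑ n ∈ s.filter (fun n => kk n = k), (‖B (zv n.1)‖ ^ (2 * N))⁻¹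
        ≤ ∑ k ∈ s.image kk, 8 ^ N * (1 / 2) ^ k * (r ^ (2 * N))⁻¹ :=
          Finset.sum_le_sum fun k _ => hshell s k
      _ = 8 ^ N * (∑ k ∈ s.image kk, ((1 : ℝ) / 2) ^ k) * (r ^ (2 * N))⁻¹ := by
          rw [Finset.mul_sum, Finset.sum_mul]
      _ ≤ 8 ^ N * 2 * (r ^ (2 * N))⁻¹ := by
          apply mul_le_mul_of_nonneg_right _ (by positivity)
          exact mul_le_mul_of_nonneg_left h2 (by positivity)
  have hsum : Summable (fun n : {n : Fin N → ℤ // n ≠ 0} => (‖B (zv n.1)‖ ^ (2 * N))⁻¹) :=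
    summable_of_sum_le (fun n => by positivity) hfin
  exact ⟨hsum, hsum.tsum_le_of_sum_le hfin⟩

end Pool.Agent.BRZ
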